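import Pool.Agent.H371Z.Tri.Final

set_option autoImplicit false

namespace Pool.Agent.Results.MP_311ff9_lc.AReduction

open Pool.Agent.H371Z.Tri
open scoped ENNReal

/-- For every `p ∈ [1, ∞]` and every bound `B`, maximum three-dimensional matching with at most `B`
occurrences of each element AP-reduces to the maximum-perimeter triangle partition problem under
the `L_p` norm, with the dimension part of the input. -/
theorem result (p : ℝ≥0∞) (hp : 1 ≤ p) (B : ℕ) : APReduces (max3DM B) (maxTri p) :=
  main p hp B

end Pool.Agent.Results.MP_311ff9_lc.AReduction
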